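import Pool.Agent.H756.LS.Csb

/-!
# MP_b004e2_gt: when do the level groups of `M` occur among those of `N`?

A manifold is a Hausdorff second countable space in which every point has an open neighbourhood
homeomorphic to some `ℝⁿ`; `n` may depend on the point, there may be infinitely many components
(`IsMfd`, in `Pool/Agent/H756/LS/Defs.lean`).  `levelGroup f` is the group `G_f^M` of the
homeomorphisms `T : M ≃ₜ M` with `f ∘ T = f` (same file).  `posPart M` is the set of the points
of `M` which are not isolated (the union of the components of positive dimension).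

**Theorem.** Let `M` have no isolated points.  There is a continuous `f₀ : M → ℝ` such that
`G_{f₀}^M` is isomorphic to no `G_f^N` if and only if `M` is not homeomorphic to a clopen subset
(a union of components) of `N`.
-/

set_option autoImplicit false

open Set Topology Function

namespace Pool.Agent.Results.MP_b004e2_gt.UnionsOfComponents

open Pool.Agent.H756.LS

/-- The property asked for in Q1: there is a continuous `f₀ : M → ℝ` such that `G_{f₀}^M` is
isomorphic to no group `G_f^N`, `f : N → ℝ` continuous. -/
def Distinguished (M N : Type) [TopologicalSpace M] [TopologicalSpace N] : Prop :=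
  ∃ f₀ : M → ℝ, Continuous f₀ ∧
    ∀ f : N → ℝ, Continuous f → IsEmpty (levelGroup f₀ ≃* levelGroup f)

/-- `X` is homeomorphic to a clopen subset of `N`: a union of connected components of `N`, when
`N` is a manifold. -/
def ClopenIn (X N : Type) [TopologicalSpace X] [TopologicalSpace N] : Prop :=
  ∃ U : Set N, IsClopen U ∧ Nonempty (X ≃ₜ U)

theorem not_distinguished {M N : Type} [TopologicalSpace M] [TopologicalSpace N] :
    ¬ Distinguished M N ↔ ∀ f0 : M → ℝ, Continuous f0 →
      ∃ f : N → ℝ, Continuous f ∧ Nonempty (levelGroup f0 ≃* levelGroup f) := by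
  unfold Distinguished
  push Not
  simp only [not_isEmpty_iff]

theorem result :
    (∀ (M N : Type) [TopologicalSpace M] [TopologicalSpace N], IsMfd M → IsMfd N →
      (¬ ClopenIn (posPart M) N → Distinguished M N) ∧
      ((∀ x y : M, IsOpen ({x} : Set M) → IsOpen ({y} : Set M) → x = y) →
        (Distinguished M N ↔ ¬ ClopenIn (posPart M) N)) ∧
      ((∀ x : M, ¬ IsOpen ({x} : Set M)) → (Distinguished M N ↔ ¬ ClopenIn M N)) ∧
      ((∀ x : M, ¬ IsOpen ({x} : Set M)) → (∀ y : N, ¬ IsOpen ({y} : Set N)) →
        IsEmpty (M ≃ₜ N) → Distinguished M N ∨ Distinguished N M)) ∧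
    (∀ (M N : Type) [TopologicalSpace M] [TopologicalSpace N] [ConnectedSpace M]
      [ConnectedSpace N], IsMfd M → IsMfd N → IsEmpty (M ≃ₜ N) →
        (Distinguished M N ↔ Nontrivial M)) := by
  have h1 : ∀ (M N : Type) [TopologicalSpace M] [TopologicalSpace N], IsMfd M → IsMfd N →
      (∀ x : M, ¬ IsOpen ({x} : Set M)) → (Distinguished M N ↔ ¬ ClopenIn M N) := by
    intro M N _ _ hM hN hiso
    rw [← not_iff_not, not_distinguished, not_not]
    exact main hM hN hiso
  have h2 : ∀ (M N : Type) [TopologicalSpace M] [TopologicalSpace N], IsMfd M → IsMfd N →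
      (∀ x y : M, IsOpen ({x} : Set M) → IsOpen ({y} : Set M) → x = y) →
        (Distinguished M N ↔ ¬ ClopenIn (posPart M) N) := by
    intro M N _ _ hM hN hiso
    rw [← not_iff_not, not_distinguished, not_not]
    exact main_iff hM hN hiso
  refine ⟨fun M N _ _ hM hN => ⟨fun h => ?_, h2 M N hM hN, h1 M N hM hN, fun hi hj he => ?_⟩,
    fun M N _ _ _ _ hM hN he => ?_⟩
  · by_contra hcon
    exact h (main_pos hM hN (not_distinguished.1 hcon))
  · by_contra hcon
    push Not at hcon
    obtain ⟨hc1, hc2⟩ := hcon
    rw [h1 M N hM hN hi, not_not] at hc1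
    rw [h1 N M hN hM hj, not_not] at hc2
    obtain ⟨U, hU, ⟨e⟩⟩ := hc1
    obtain ⟨V, hV, ⟨k⟩⟩ := hc2
    have := locallyConnected hM
    obtain ⟨φ⟩ := clopen_csb U hU e V hV k
    exact he.elim φ
  · constructor
    · intro hd
      rcases subsingleton_or_nontrivial M with hs | hn
      · exfalso
        have h3 : ∀ x y : M, IsOpen ({x} : Set M) → IsOpen ({y} : Set M) → x = y :=
          fun x y _ _ => Subsingleton.elim x y
        rw [h2 M N hM hN h3] at hd
        apply hd
        have h4 : IsEmpty (posPart M) := by
          constructor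
          rintro ⟨x, hx⟩
          apply hx
          have : ({x} : Set M) = univ := by
            ext y
            simp [Subsingleton.elim y x]
          rw [this]
          exact isOpen_univ
        have h5 : IsEmpty (∅ : Set N) := inferInstance
        exact ⟨∅, isClopen_empty, ⟨Homeomorph.empty⟩⟩
      · exact hn
    · intro hn
      have := hM.1
      have h3 : ∀ x : M, ¬ IsOpen ({x} : Set M) := by
        intro x hx
        have h4 : IsClopen ({x} : Set M) := ⟨isClosed_singleton, hx⟩
        rcases isClopen_iff.1 h4 with h | h
        · exact singleton_ne_empty x h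
        · obtain ⟨y, hy⟩ := exists_ne x
          exact hy (h.symm ▸ mem_univ y : y ∈ ({x} : Set M))
      rw [h1 M N hM hN h3]
      rintro ⟨U, hU, ⟨e⟩⟩
      rcases isClopen_iff.1 hU with h | h
      · subst h
        obtain ⟨x⟩ := (inferInstance : Nonempty M)
        exact (e x).2
      · subst h
        exact he.elim (e.trans (Homeomorph.Set.univ N))

end Pool.Agent.Results.MP_b004e2_gt.UnionsOfComponents
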